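import Pool.Agent.Helper29.PHW.Tools

/-!
# Reading a set through quasipolynomial padding
-/

set_option autoImplicit false

namespace Pool.Agent.Helper29.SP4

open Pool.Agent.Helper20.Spectra Pool.Agent.Helper58.QD Pool.Agent.Helper29.PHW
open Pool.Agent.Helper38.DG.AdvT (exists_pair nA)

/-- If the numbers `(n + P n) ^ 2 + n`, and those with `n ∈ A`, form sets in PH, and `P n` has
polynomially many digits, then `A` is in PH. -/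
theorem phQ {T₁ T₂ A : Set ℕ} {P : ℕ → ℕ} {e : ℕ} (h₁ : PolyHier T₁) (h₂ : PolyHier T₂)
    (e₁ : ∀ n p, 1 ≤ n → ((n + p) ^ 2 + n ∈ T₁ ↔ p = P n))
    (e₂ : ∀ n, 1 ≤ n → ((n + P n) ^ 2 + n ∈ T₂ ↔ n ∈ A))
    (hb : ∀ n, 2 ≤ n → Nat.log 2 ((n + P n) ^ 2 + n) + 1 ≤ (Nat.log 2 n + 1) ^ e)
    (hP : ∀ n, 2 ≤ n → P n ≤ 2 ^ ((Nat.log 2 n + 1) ^ e)) : PolyHier A := by
  obtain ⟨E₁, c₁, hE₁, hW₁⟩ := h₁
  obtain ⟨E₂, c₂, hE₂, hW₂⟩ := h₂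
  have hR : RudX nA 2 (fun _ z => ∃ p, p ≤ z 1 ∧
      ((((z 0 + p) ^ 2 + z 0) + z 1) ^ 2 + ((z 0 + p) ^ 2 + z 0) ∈ E₁ ∧
      (∀ p', p' ≤ p → (p' < p → (((z 0 + p') ^ 2 + z 0) + z 1) ^ 2 + ((z 0 + p') ^ 2 + z 0) ∉ E₁)) ∧
      (((z 0 + p) ^ 2 + z 0) + z 1) ^ 2 + ((z 0 + p) ^ 2 + z 0) ∈ E₂)) := by
    have p0 : Helper20.Spectra.IsPoly (2 + 1) (fun w => w 0) := Helper20.Spectra.IsPoly.var 0
    have n0 : Helper20.Spectra.IsPoly (2 + 1) (fun w => Fin.tail w 0) :=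
      Helper20.Spectra.IsPoly.var 1
    have a0 : Helper20.Spectra.IsPoly (2 + 1) (fun w => Fin.tail w 1) :=
      Helper20.Spectra.IsPoly.var 2
    have z0 : Helper20.Spectra.IsPoly (2 + 1) (fun w => (Fin.tail w 0 + w 0) ^ 2 + Fin.tail w 0) :=
      ((n0.add p0).pow 2).add n0
    refine RudX.ex (Helper20.Spectra.IsPoly.var 1) (P := fun _ z p =>
      ((((z 0 + p) ^ 2 + z 0) + z 1) ^ 2 + ((z 0 + p) ^ 2 + z 0) ∈ E₁ ∧
      (∀ p', p' ≤ p → (p' < p → (((z 0 + p') ^ 2 + z 0) + z 1) ^ 2 + ((z 0 + p') ^ 2 + z 0) ∉ E₁)) ∧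
      (((z 0 + p) ^ 2 + z 0) + z 1) ^ 2 + ((z 0 + p) ^ 2 + z 0) ∈ E₂)) ?_
    refine (RudX.mem hE₁ (((z0.add a0).pow 2).add z0)).and' (RudX.and' ?_
      (RudX.mem hE₂ (((z0.add a0).pow 2).add z0)))
    refine RudX.all p0 (P := fun _ w p' => p' < w 0 →
      (((Fin.tail w 0 + p') ^ 2 + Fin.tail w 0) + Fin.tail w 1) ^ 2 +
        ((Fin.tail w 0 + p') ^ 2 + Fin.tail w 0) ∉ E₁) ?_
    have v0 : Helper20.Spectra.IsPoly (2 + 1 + 1) (fun w => w 0) :=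
      Helper20.Spectra.IsPoly.var 0
    have z1 : Helper20.Spectra.IsPoly (2 + 1 + 1)
        (fun w => (Fin.tail (Fin.tail w) 0 + w 0) ^ 2 + Fin.tail (Fin.tail w) 0) :=
      ((n0.tail.add v0).pow 2).add n0.tail
    exact (RudX.lt v0 p0.tail).imp (RudX.mem hE₁ (((z1.add a0.tail).pow 2).add z1)).not'
  obtain ⟨E', hE', h'⟩ := exists_pair (P := fun n a => ∃ p, p ≤ a ∧
      ((((n + p) ^ 2 + n) + a) ^ 2 + ((n + p) ^ 2 + n) ∈ E₁ ∧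
      (∀ p', p' ≤ p → (p' < p → (((n + p') ^ 2 + n) + a) ^ 2 + ((n + p') ^ 2 + n) ∉ E₁)) ∧
      (((n + p) ^ 2 + n) + a) ^ 2 + ((n + p) ^ 2 + n) ∈ E₂)) hR
  refine phOf 2 (e * (c₁ + c₂) + e) hE' (fun n hn hn2 a ha => ?_)
  rw [h']
  have hL : 1 ≤ Nat.log 2 n + 1 := by omega
  have hz : ∀ p, p ≤ P n → ∀ c, c ≤ c₁ + c₂ →
      2 ^ ((Nat.log 2 ((n + p) ^ 2 + n) + 1) ^ c) ≤ a := by
    intro p hp c hc
    refine le_trans (Nat.pow_le_pow_right (by norm_num) ?_) ha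
    have h1 : (n + p) ^ 2 + n ≤ (n + P n) ^ 2 + n :=
      Nat.add_le_add_right (Nat.pow_le_pow_left (by omega) 2) n
    calc (Nat.log 2 ((n + p) ^ 2 + n) + 1) ^ c
        ≤ (Nat.log 2 ((n + P n) ^ 2 + n) + 1) ^ c :=
          Nat.pow_le_pow_left (Nat.add_le_add_right (Nat.log_mono_right h1) 1) c
      _ ≤ ((Nat.log 2 n + 1) ^ e) ^ c := Nat.pow_le_pow_left (hb n hn2) c
      _ = (Nat.log 2 n + 1) ^ (e * c) := (pow_mul _ _ _).symm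
      _ ≤ (Nat.log 2 n + 1) ^ (e * (c₁ + c₂) + e) := Nat.pow_le_pow_right hL
          ((Nat.mul_le_mul_left e hc).trans (Nat.le_add_right _ _))
  have hPa : P n ≤ a := (hP n hn2).trans ((Nat.pow_le_pow_right (by norm_num)
    (Nat.pow_le_pow_right hL (Nat.le_add_left _ _))).trans ha)
  have k1 : ∀ p, p ≤ P n → ((n + p) ^ 2 + n ∈ T₁ ↔
      (((n + p) ^ 2 + n) + a) ^ 2 + ((n + p) ^ 2 + n) ∈ E₁) := fun p hp =>
    hW₁ _ (by omega) a (hz p hp c₁ (by omega))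
  have k2 := hW₂ ((n + P n) ^ 2 + n) (by omega) a (hz (P n) le_rfl c₂ (by omega))
  constructor
  · intro hA
    refine ⟨P n, hPa, (k1 _ le_rfl).1 ((e₁ n _ hn).2 rfl), fun p' _ hp' h => ?_,
      k2.1 ((e₂ n hn).2 hA)⟩
    have := (e₁ n p' hn).1 ((k1 p' hp'.le).2 h)
    omega
  · rintro ⟨p, -, h1, h2, h3⟩
    have hp : p = P n := by
      rcases Nat.lt_trichotomy p (P n) with h | h | h
      · exact (e₁ n p hn).1 ((k1 p h.le).2 h1)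
      · exact h
      · exact absurd ((k1 _ le_rfl).1 ((e₁ n _ hn).2 rfl)) (h2 (P n) h.le h)
    subst hp
    exact (e₂ n hn).1 (k2.2 h3)

end Pool.Agent.Helper29.SP4
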