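import Pool.Agent.Helper29.SP4.Tr
import Pool.Agent.Helper29.SP4.PHs
import Pool.Agent.Helper12.SS.Spec

/-!
# Sets of polylogarithmic size: spectra in PH if and only if all spectra are
-/

set_option autoImplicit false

namespace Pool.Agent.Helper29.SP4

open FirstOrder FirstOrder.Language Pool.Agent.Helper20.Spectra Pool.Agent.Helper14.SS
  Pool.Agent.Helper58.QD

variable {L : FirstOrder.Language.{0, 0}}

/-- invariance under isomorphisms -/
lemma holds_iso {k m : ℕ} (φ : SFm L k m) {M N : Type} [L.Structure M] [L.Structure N]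
    (E : M ≃[L] N) (b : ℕ) (v : Fin k → M) (V : Fin m → Finset M) :
    φ.Holds b v V ↔ φ.Holds b (E ∘ v) (fun j => (V j).map E.toEquiv.toEmbedding) := by
  induction φ with
  | fo φ => exact (StrongHomClass.realize_formula E φ).symm
  | mem i j =>
    show v i ∈ V j ↔ E.toEquiv (v i) ∈ (V j).map E.toEquiv.toEmbedding
    rw [Finset.mem_map_equiv, Equiv.symm_apply_apply]
  | not φ ih => exact not_congr (ih v V)
  | and φ φ' ih ih' => exact and_congr (ih v V) (ih' v V)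
  | ex φ ih =>
    show (∃ x : M, _) ↔ (∃ y : N, _)
    constructor
    · rintro ⟨x, hx⟩
      refine ⟨E x, ?_⟩
      have h1 := (ih (Fin.cons x v) V).1 hx
      have e1 : E ∘ (Fin.cons x v : Fin (_ + 1) → M) = Fin.cons (E x) (E ∘ v) := by
        funext i
        refine Fin.cases ?_ (fun i => ?_) i <;> rfl
      rwa [e1] at h1
    · rintro ⟨y, hy⟩
      refine ⟨E.symm y, (ih (Fin.cons (E.symm y) v) V).2 ?_⟩
      have e1 : E ∘ (Fin.cons (E.symm y) v : Fin (_ + 1) → M) = Fin.cons y (E ∘ v) := by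
        funext i
        refine Fin.cases ?_ (fun i => ?_) i
        · exact E.apply_symm_apply y
        · rfl
      rwa [e1]
  | exSet φ ih =>
    show (∃ X : Finset M, _ ∧ _) ↔ (∃ Y : Finset N, _ ∧ _)
    constructor
    · rintro ⟨X, hc, hX⟩
      refine ⟨X.map E.toEquiv.toEmbedding, by rwa [Finset.card_map], ?_⟩
      have h1 := (ih v (Fin.cons X V)).1 hX
      have e1 : (fun j => ((Fin.cons X V : Fin (_ + 1) → Finset M) j).map E.toEquiv.toEmbedding) =
          Fin.cons (X.map E.toEquiv.toEmbedding) (fun j => (V j).map E.toEquiv.toEmbedding) := by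
        funext i
        refine Fin.cases ?_ (fun i => ?_) i <;> rfl
      rwa [e1] at h1
    · rintro ⟨Y, hc, hY⟩
      refine ⟨Y.map E.toEquiv.symm.toEmbedding, by rwa [Finset.card_map],
        (ih v (Fin.cons (Y.map E.toEquiv.symm.toEmbedding) V)).2 ?_⟩
      have e1 : (fun j => ((Fin.cons (Y.map E.toEquiv.symm.toEmbedding) V :
          Fin (_ + 1) → Finset M) j).map E.toEquiv.toEmbedding) =
          Fin.cons Y (fun j => (V j).map E.toEquiv.toEmbedding) := by
        funext i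
        refine Fin.cases ?_ (fun i => ?_) i
        · show (Y.map E.toEquiv.symm.toEmbedding).map E.toEquiv.toEmbedding = Y
          ext y
          simp [Finset.mem_map_equiv]
        · rfl
      rwa [e1]

/-- recursive definition of the graph of `2 ^ i` up to `z` -/
def Eok (X : SOA (bL L)) (z : ℕ) : Prop := ∀ i, i ≤ z → ∀ p, p ≤ z → (er X i p ↔
  ((i = 0 ∧ p = 1) ∨ ∃ i', i' ≤ z ∧ ∃ p', p' ≤ z ∧ (i = i' + 1 ∧ (p = 2 * p' ∧ er X i' p'))))

lemma Eok_iff {X : SOA (bL L)} {z : ℕ} (h : Eok X z) : ∀ i, i ≤ z → ∀ p, p ≤ z →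
    (er X i p ↔ p = 2 ^ i) := by
  intro i
  induction i with
  | zero =>
    intro hi p hp
    rw [h 0 hi p hp, pow_zero]
    constructor
    · rintro (h1 | ⟨i', -, p', -, h1, -⟩)
      · exact h1.2
      · omega
    · exact fun h1 => Or.inl ⟨rfl, h1⟩
  | succ i ih =>
    intro hi p hp
    rw [h (i + 1) hi p hp]
    constructor
    · rintro (h1 | ⟨i', hi', p', hp', h1, h2, h3⟩)
      · omega
      · have h4 : i' = i := by omega
        subst h4
        rw [ih hi' p' hp'] at h3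
        rw [h2, h3, pow_succ']
    · intro h1
      have h2 : p = 2 * 2 ^ i := by rw [h1, pow_succ']
      exact Or.inr ⟨i, by omega, 2 ^ i, by omega, rfl, h2, (ih (by omega) _ (by omega)).2 rfl⟩

lemma Eok_of {X : SOA (bL L)} (h : ∀ i p, er X i p ↔ p = 2 ^ i) (z : ℕ) : Eok X z := by
  intro i hi p hp
  rw [h]
  constructor
  · intro h1
    rcases Nat.eq_zero_or_pos i with h0 | h0
    · subst h0
      exact Or.inl ⟨rfl, by rw [h1, pow_zero]⟩
    · obtain ⟨i', rfl⟩ : ∃ i', i = i' + 1 := ⟨i - 1, by omega⟩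
      have h2 : p = 2 * 2 ^ i' := by rw [h1, pow_succ']
      exact Or.inr ⟨i', by omega, 2 ^ i', by omega, rfl, h2, (h _ _).2 rfl⟩
  · rintro (h1 | ⟨i', hi', p', hp', h1, h2, h3⟩)
    · rw [h1.1, h1.2, pow_zero]
    · rw [h] at h3
      rw [h2, h3, h1, pow_succ']

lemma Eok_rudX {l : ℕ} {s : (Fin l → ℕ) → ℕ} (hs : IsPoly l s) :
    RudX (bL L) l (fun X v => Eok X (s v)) := by
  unfold Eok
  refine RudX.all hs (RudX.all hs.tail (RudX.iff (er_rudX (IsPoly.var 1) (IsPoly.var 0))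
    (RudX.or (RudX.and' (RudX.eq (IsPoly.var 1) (Helper20.Spectra.IsPoly.const 0))
      (RudX.eq (IsPoly.var 0) (Helper20.Spectra.IsPoly.const 1)))
      (RudX.ex hs.tail.tail (RudX.ex hs.tail.tail.tail (RudX.and'
        (RudX.eq (IsPoly.var 3) ((IsPoly.var 1).add (Helper20.Spectra.IsPoly.const 1)))
        (RudX.and' (RudX.eq (IsPoly.var 2) ((Helper20.Spectra.IsPoly.const 2).mul (IsPoly.var 0)))
          (er_rudX (IsPoly.var 1) (IsPoly.var 0)))))))))

lemma pair_inj {n p n' p' : ℕ} (h : (n + p) ^ 2 + n = (n' + p') ^ 2 + n') : n = n' ∧ p = p' := by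
  have h1 : ∀ a b c d : ℕ, a + b < c + d → (a + b) ^ 2 + a < (c + d) ^ 2 + c := by
    intro a b c d h
    have h2 : (a + b + 1) ^ 2 ≤ (c + d) ^ 2 := Nat.pow_le_pow_left h 2
    have h3 : (a + b + 1) ^ 2 = (a + b) ^ 2 + 2 * (a + b) + 1 := by ring
    omega
  rcases Nat.lt_trichotomy (n + p) (n' + p') with h2 | h2 | h2
  · have := h1 n p n' p' h2
    omega
  · rw [h2] at h
    omega
  · have := h1 n' p' n p h2
    omega

/-- the padding -/
def Pn (e n : ℕ) : ℕ := 2 ^ ((Nat.log 2 n + 1) * (Nat.log 2 n + 1) ^ e)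

/-- the condition which defines the padded set -/
def Gc (F : SOA (bL L) → (Fin 5 → ℕ) → (Fin 0 → ℕ) → (Fin 0 → ℕ) → Prop) (e : ℕ)
    (X : SOA (bL L)) (z : ℕ) : Prop :=
  ∃ n, n ≤ z ∧ ∃ P, P ≤ z ∧ ∃ g, g ≤ z ∧ ∃ B, B ≤ z ∧ ∃ c, c ≤ z ∧ (z = (n + P) ^ 2 + n ∧
    (1 ≤ n ∧ (Eok X z ∧ (er X g B ∧ (n < B ∧ (B ≤ 2 * n ∧ (c = g ^ e ∧ (g * c ≤ z ∧
      (er X (g * c) P ∧ (WF L (lp X) n ∧ F X ![n, g, c, B, P] Fin.elim0 Fin.elim0))))))))))

lemma Gc_rudX [Finite (Σ l, L.Functions l)]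
    {F : SOA (bL L) → (Fin 5 → ℕ) → (Fin 0 → ℕ) → (Fin 0 → ℕ) → Prop} (hF : TrD L 0 0 F)
    (e : ℕ) : RudX (bL L) 1 (fun X v => Gc F e X (v 0)) := by
  unfold Gc
  have z5 : IsPoly (1 + 1 + 1 + 1 + 1 + 1) (fun w => w 5) := IsPoly.var 5
  refine RudX.ex (IsPoly.var 0) (RudX.ex (IsPoly.var 1) (RudX.ex (IsPoly.var 2)
    (RudX.ex (IsPoly.var 3) (RudX.ex (IsPoly.var 4) (RudX.and'
      (RudX.eq (IsPoly.var 5) ((((IsPoly.var 4).add (IsPoly.var 3)).pow 2).add (IsPoly.var 4)))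
      (RudX.and' (RudX.le (Helper20.Spectra.IsPoly.const 1) (IsPoly.var 4)) (RudX.and' (Eok_rudX (IsPoly.var 5))
        (RudX.and' (er_rudX (IsPoly.var 2) (IsPoly.var 1)) (RudX.and'
          (RudX.lt (IsPoly.var 4) (IsPoly.var 1)) (RudX.and' (RudX.le (IsPoly.var 1)
            ((Helper20.Spectra.IsPoly.const 2).mul (IsPoly.var 4))) (RudX.and'
              (RudX.eq (IsPoly.var 0) ((IsPoly.var 2).pow e)) (RudX.and'
                (RudX.le ((IsPoly.var 2).mul (IsPoly.var 0)) (IsPoly.var 5)) (RudX.and'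
                (er_rudX ((IsPoly.var 2).mul (IsPoly.var 0)) (IsPoly.var 3))
                (RudX.and' ?_ ?_))))))))))))))
  · exact (lp_rudX WF_rudX).subst _ (fun _ w => w 4) (fun _ => IsPoly.var 4)
  · refine (hF (1 + 1 + 1 + 1 + 1 + 1) ![fun w => w 4, fun w => w 2, fun w => w 0, fun w => w 1,
      fun w => w 3] (fun i => i.elim0) (fun i => i.elim0) ?_ (fun i => i.elim0)
      (fun i => i.elim0)).congr (fun X v => ?_)
    · intro i
      fin_cases i
      · exact IsPoly.var 4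
      · exact IsPoly.var 2
      · exact IsPoly.var 0
      · exact IsPoly.var 1
      · exact IsPoly.var 3
    · have e1 : (fun i => (![fun w => w 4, fun w => w 2, fun w => w 0, fun w => w 1,
          fun w => w 3] : Fin 5 → (Fin (1 + 1 + 1 + 1 + 1 + 1) → ℕ) → ℕ) i v) =
          ![v 4, v 2, v 0, v 1, v 3] := by
        funext i
        fin_cases i <;> rfl
      have e2 : (fun i : Fin 0 => ((fun i => i.elim0 : Fin 0 → (Fin (1 + 1 + 1 + 1 + 1 + 1) → ℕ) → ℕ)
          i v)) = Fin.elim0 := funext fun i => i.elim0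
      rw [e1, e2]
      exact Iff.rfl

/-- a structure from its codes -/
lemma exists_struct {n : ℕ} {X : SOA (asym L)} (h : WF L X n) : ∃ S : L.Structure (Fin n),
    CodesX n X S := by
  have h1' : ∀ (f : Σ l, L.Functions l) (x : Fin f.1 → Fin n), ∃ y : Fin n,
      X (Sum.inl f) (Fin.cons (y : ℕ) (fun i => (x i : ℕ)) : Fin (f.1 + 1) → ℕ) ∧
      ∀ y' : Fin n, X (Sum.inl f) (Fin.cons (y' : ℕ) (fun i => (x i : ℕ)) :
        Fin (f.1 + 1) → ℕ) → y' = y := by
    intro f x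
    by_contra hcon
    apply h f
    refine ⟨fun i => (x i : ℕ), fun i => (x i).isLt, ?_⟩
    rintro ⟨y, _, hy, h5, h6⟩
    apply hcon
    exact ⟨⟨y, hy⟩, h5, fun y' h7 => Fin.ext (h6 y' y'.isLt.le y'.isLt h7)⟩
  choose g hg hg' using h1'
  refine ⟨{ funMap := fun {l} f x => g ⟨l, f⟩ x
            RelMap := fun {l} r x => X (Sum.inr ⟨l, r⟩) (fun i => (x i : ℕ)) }, ?_, ?_⟩
  · intro f x y
    constructor
    · intro h5
      exact (hg' f x y h5).symm
    · intro h5
      have h6 : g f x = y := h5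
      rw [← h6]
      exact hg f x
  · intro r x
    exact Iff.rfl

/-- the codes of a structure -/
def codeX {n : ℕ} (S : L.Structure (Fin n)) : SOA (bL L) := fun i => match i with
  | Sum.inl (Sum.inl f) => fun w => ∃ x : Fin f.1 → Fin n,
      (w = (Fin.cons ((S.funMap f.2 x : Fin n) : ℕ) (fun i => (x i : ℕ)) :
        Fin (f.1 + 1) → ℕ))
  | Sum.inl (Sum.inr r) => fun w => ∃ x : Fin r.1 → Fin n,
      (w = fun i => (x i : ℕ)) ∧ S.RelMap r.2 x
  | Sum.inr () => fun w => (show Fin 2 → ℕ from w) 1 = 2 ^ (show Fin 2 → ℕ from w) 0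

lemma codeX_codes {n : ℕ} (S : L.Structure (Fin n)) : CodesX n (lp (codeX S)) S := by
  constructor
  · intro f x y
    constructor
    · rintro ⟨x', h4⟩
      have h5 : (y : ℕ) = ((S.funMap f.2 x' : Fin n) : ℕ) := congrFun h4 0
      have h6 : x = x' := by
        funext i
        have := congrFun h4 i.succ
        exact Fin.ext this
      rw [h6]
      exact (Fin.ext h5).symm
    · intro h4
      exact ⟨x, by rw [h4]⟩
  · intro r x
    constructor
    · rintro ⟨x', h4, h5⟩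
      have h6 : x = x' := by
        funext i
        exact Fin.ext (congrFun h4 i)
      rw [h6]
      exact h5
    · intro h4
      exact ⟨x, rfl, h4⟩

lemma codeX_wf {n : ℕ} (S : L.Structure (Fin n)) : WF L (lp (codeX S)) n := by
  intro f
  rintro ⟨x, hx, h4⟩
  apply h4
  let x' : Fin f.1 → Fin n := fun i => ⟨x i, hx i⟩
  have h5 := fun y => (codeX_codes S).1 f x' y
  refine ⟨S.funMap f.2 x', (Fin.is_lt _).le, Fin.is_lt _, (h5 _).2 rfl, ?_⟩
  intro y' _ hy' h6
  exact congrArg Fin.val ((h5 ⟨y', hy'⟩).1 h6).symm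

lemma codeX_er {n : ℕ} (S : L.Structure (Fin n)) (i p : ℕ) : er (codeX S) i p ↔ p = 2 ^ i :=
  Iff.rfl

/-- the padded set -/
theorem exists_T [Finite (Σ l, L.Functions l)] [Finite (Σ l, L.Relations l)] (φ : SFm L 0 0)
    (e : ℕ) : ∃ T : Set ℕ, IsSpectrum T ∧ ∀ n p, 1 ≤ n → ((n + p) ^ 2 + n ∈ T ↔
      p = Pn e n ∧ n ∈ specS (fun n => (Nat.log 2 n + 1) ^ e) φ) := by
  obtain ⟨F, hF, hF'⟩ := exists_tr φ
  have hfin : Finite (Sym L ⊕ Unit) := inferInstanceAs (Finite ((_ ⊕ _) ⊕ _))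
  refine ⟨_, RudX.isSpectrum (Gc_rudX hF e), fun n p hn => ?_⟩
  have hle : ∀ q, q ≤ n + p → q ≤ (n + p) ^ 2 + n := by
    intro q hq
    have : n + p ≤ (n + p) ^ 2 := Nat.le_self_pow (by omega) _
    omega
  constructor
  · rintro ⟨-, X, n', -, P, -, g, hg, B, hB', c, -, hz, h1, hE, hB, hnB, hBn, hc, hgc, hP, hWF, hX⟩
    obtain ⟨rfl, rfl⟩ := pair_inj hz
    have hE' := Eok_iff hE
    have h2 : B = 2 ^ g := (hE' g hg B hB').1 hB
    subst h2
    have h3 : p = 2 ^ (g * c) := (hE' _ hgc p (hle p (by omega))).1 hP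
    have hg1 : 1 ≤ g := by
      rcases Nat.eq_zero_or_pos g with h0 | h0
      · subst h0
        rw [pow_zero] at hnB
        omega
      · exact h0
    obtain ⟨g', rfl⟩ : ∃ g', g = g' + 1 := ⟨g - 1, by omega⟩
    have h4 : Nat.log 2 n = g' := by
      rw [pow_succ] at hBn
      exact Nat.log_eq_of_pow_le_of_lt_pow (by omega) hnB
    obtain ⟨S, hS⟩ := exists_struct hWF
    have h5 := hF' n (g' + 1) c X S hnB hS (fun i q hi hq => by
      rw [← h3] at hi hq
      exact hE' i (hle i (by omega)) q (hle q (by omega))) Fin.elim0 Fin.elim0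
    have e1 : par n (g' + 1) c = ![n, g' + 1, c, 2 ^ (g' + 1), p] := by
      rw [h3]
      rfl
    have e2 : (fun i : Fin 0 => (((Fin.elim0 : Fin 0 → Fin n) i : Fin n) : ℕ)) = Fin.elim0 :=
      funext fun i => i.elim0
    have e3 : (fun j : Fin 0 => Dg n (2 ^ (g' + 1)) c ((Fin.elim0 : Fin 0 → ℕ) j)) = Fin.elim0 :=
      funext fun i => i.elim0
    rw [e1, e2, e3] at h5
    refine ⟨?_, hn, Fin n, S, inferInstance, Fintype.card_fin n, ?_⟩
    · rw [h3, Pn, h4, hc]
    · have h6 := h5.1 hX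
      beta_reduce
      rw [h4, ← hc]
      exact h6
  · rintro ⟨rfl, -, M, hM, hMf, hcard, hH⟩
    let e' : M ≃ Fin n := Fintype.equivFinOfCardEq hcard
    let S : L.Structure (Fin n) := e'.inducedStructure
    have hH' : @SFm.Holds L (Fin n) S ((Nat.log 2 n + 1) ^ e) 0 0 φ Fin.elim0 Fin.elim0 := by
      have h1 := (holds_iso φ (e'.inducedStructureEquiv (L := L)) _ Fin.elim0 Fin.elim0).1 hH
      have e1 : (e'.inducedStructureEquiv (L := L)) ∘ (Fin.elim0 : Fin 0 → M) = Fin.elim0 :=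
        funext fun i => i.elim0
      have e2 : (fun j : Fin 0 => ((Fin.elim0 : Fin 0 → Finset M) j).map
          (e'.inducedStructureEquiv (L := L)).toEquiv.toEmbedding) = Fin.elim0 :=
        funext fun i => i.elim0
      rw [e1, e2] at h1
      exact h1
    obtain ⟨g, hg⟩ : ∃ g, g = Nat.log 2 n + 1 := ⟨_, rfl⟩
    obtain ⟨c, hc⟩ : ∃ c, c = g ^ e := ⟨_, rfl⟩
    have hPn : Pn e n = 2 ^ (g * c) := by rw [Pn, hc, hg]
    rw [hPn] at hle ⊢
    rw [← hg, ← hc] at hH'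
    have hg1 : 1 ≤ g := by omega
    have hc1 : 1 ≤ c := by
      rw [hc]
      exact Nat.one_le_pow _ _ hg1
    have k1 : g * c < 2 ^ (g * c) := Nat.lt_two_pow_self
    have k2 : g * 1 ≤ g * c := Nat.mul_le_mul_left g hc1
    have k3 : 1 * c ≤ g * c := Nat.mul_le_mul_right c hg1
    have k4 : 2 ^ g ≤ 2 ^ (g * c) := Nat.pow_le_pow_right (by norm_num) (by omega)
    have k5 : n < 2 ^ g := by
      rw [hg]
      exact Nat.lt_pow_succ_log_self (by norm_num) n
    have k6 : 2 ^ g ≤ 2 * n := by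
      rw [hg, pow_succ']
      exact Nat.mul_le_mul_left 2 (Nat.pow_log_le_self 2 (by omega))
    refine ⟨by omega, codeX S, n, hle n (by omega), 2 ^ (g * c), hle _ (by omega), g,
      hle _ (by omega), 2 ^ g, hle _ (by omega), c, hle _ (by omega), rfl, hn,
      Eok_of (codeX_er S) _, rfl, k5, k6, hc, hle _ (by omega), rfl, codeX_wf S, ?_⟩
    have h5 := hF' n g c (codeX S) S k5 (codeX_codes S) (fun i q _ _ => codeX_er S i q)
      Fin.elim0 Fin.elim0
    have e2 : (fun i : Fin 0 => (((Fin.elim0 : Fin 0 → Fin n) i : Fin n) : ℕ)) = Fin.elim0 :=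
      funext fun i => i.elim0
    have e3 : (fun j : Fin 0 => Dg n (2 ^ g) c ((Fin.elim0 : Fin 0 → ℕ) j)) = Fin.elim0 :=
      funext fun i => i.elim0
    rw [e2, e3] at h5
    exact h5.2 hH'

/-- **Sets of polylogarithmic size.** The spectra of sentences with quantifiers over sets with at
most `(log n + 1) ^ c` elements are in PH if and only if all spectra are. -/
theorem polylog_iff (c : ℕ) :
    (∀ A : Set ℕ, SetSpectrum (fun n => (Nat.log 2 n + 1) ^ c) A → PolyHier A) ↔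
      ∀ A : Set ℕ, IsSpectrum A → PolyHier A := by
  refine ⟨fun h A hA => h A (Pool.Agent.Helper12.SS.t_spec _ A hA), ?_⟩
  rintro h A ⟨L, hF, hR, φ, hA⟩
  obtain ⟨T₁, h₁, h₁'⟩ := exists_T (SFm.fo ⊤ : SFm ArL 0 0) c
  obtain ⟨T₂, h₂, h₂'⟩ := exists_T φ c
  have hA' : A = specS (fun n => (Nat.log 2 n + 1) ^ c) φ := hA
  rw [hA']
  have hlog : ∀ n, 2 ≤ n → 2 ≤ Nat.log 2 n + 1 := fun n hn => by
    have : 1 ≤ Nat.log 2 n := Nat.log_pos (by norm_num) hn
    omega
  refine phQ (P := Pn c) (e := c + 4) (h T₁ h₁) (h T₂ h₂) (fun n p hn => ?_) (fun n hn => ?_)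
    (fun n hn => ?_) (fun n hn => ?_)
  · rw [h₁' n p hn]
    refine ⟨fun h => h.1, fun h => ⟨h, hn, Fin n, mkS (arI n), inferInstance, Fintype.card_fin n,
      ?_⟩⟩
    let _ := mkS (arI n)
    show (⊤ : ArL.Formula (Fin 0)).Realize (Fin.elim0 : Fin 0 → Fin n)
    exact BoundedFormula.realize_top.2 trivial
  · rw [h₂' n _ hn]
    exact ⟨fun h => h.2, fun h => ⟨rfl, h⟩⟩
  · obtain ⟨g, hg⟩ : ∃ g, g = Nat.log 2 n + 1 := ⟨_, rfl⟩
    have hg2 : 2 ≤ g := by rw [hg]; exact hlog n hn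
    have k5 : n < 2 ^ g := by
      rw [hg]
      exact Nat.lt_pow_succ_log_self (by norm_num) n
    rw [← hg]
    have hP : Pn c n = 2 ^ (g ^ (c + 1)) := by rw [Pn, ← hg, pow_succ' g c]
    obtain ⟨Q, hQ⟩ : ∃ Q, Q = 2 ^ (g ^ (c + 1)) := ⟨_, rfl⟩
    have k6 : 2 ^ g ≤ Q := by
      rw [hQ]
      refine Nat.pow_le_pow_right (by norm_num) ?_
      exact Nat.le_self_pow (by omega) g
    have k7 : (n + Q) ^ 2 + n < 8 * (Q * Q) := by nlinarith
    have k8 : 8 * (Q * Q) = 2 ^ (2 * g ^ (c + 1) + 3) := by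
      rw [hQ, ← pow_add, show 8 = 2 ^ 3 by norm_num, ← pow_add]
      congr 1
      ring
    have k9 : Nat.log 2 ((n + Pn c n) ^ 2 + n) < 2 * g ^ (c + 1) + 3 := by
      refine Nat.log_lt_of_lt_pow (by omega) ?_
      rw [← k8, hP, ← hQ]
      exact k7
    have k10 : g ^ (c + 4) = g * g * g * g ^ (c + 1) := by ring
    obtain ⟨w, hw⟩ : ∃ w, w = g ^ (c + 1) := ⟨_, rfl⟩
    have k11 : 2 ≤ w := by
      rw [hw]
      exact hg2.trans (Nat.le_self_pow (by omega) g)
    rw [k10, ← hw]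
    rw [← hw] at k9
    have k12 : 2 * 2 * 2 * w ≤ g * g * g * w :=
      Nat.mul_le_mul_right w (Nat.mul_le_mul (Nat.mul_le_mul hg2 hg2) hg2)
    omega
  · rw [Pn, ← pow_succ']
    exact Nat.pow_le_pow_right (by norm_num) (Nat.pow_le_pow_right (by omega) (by omega))

end Pool.Agent.Helper29.SP4
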