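import Pool.Agent.Helper12.SS.T4

/-!
# Small sets coded by the digits of a number
-/

set_option autoImplicit false

namespace Pool.Agent.Helper29.SP4

open Pool.Agent.Helper12.SS Pool.Agent.Helper14.SS

/-- the set of the elements which are among the first `c` digits of `x` in base `B` -/
def Dg (n B c x : ℕ) : Finset (Fin n) :=
  Finset.univ.filter fun a : Fin n => ∃ i, i < c ∧ dg B x i = a

lemma mem_Dg {n B c x : ℕ} {a : Fin n} : a ∈ Dg n B c x ↔ ∃ i, i < c ∧ dg B x i = a := by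
  simp [Dg]

lemma card_Dg (n B c x : ℕ) : (Dg n B c x).card ≤ c := by
  have h1 : (Dg n B c x).map Fin.valEmbedding ⊆ (Finset.range c).image (dg B x) := by
    intro a ha
    rw [Finset.mem_map] at ha
    obtain ⟨y, hy, rfl⟩ := ha
    obtain ⟨i, hi, h⟩ := mem_Dg.1 hy
    exact Finset.mem_image.2 ⟨i, Finset.mem_range.2 hi, h⟩
  have h2 := Finset.card_le_card h1
  rw [Finset.card_map] at h2
  exact h2.trans (Finset.card_image_le.trans (by rw [Finset.card_range]))

/-- every set with at most `c` elements has a code -/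
lemma cover_Dg {n B c : ℕ} (hn : n < B) (X : Finset (Fin n)) (hX : X.card ≤ c) :
    ∃ x, x < B ^ c ∧ Dg n B c x = X := by
  classical
  let d : ℕ → ℕ := fun i => if h : i < X.card then ((X.equivFin.symm ⟨i, h⟩ : X) : Fin n) else n
  have hd : ∀ i < c, d i < B := by
    intro i _
    by_cases h : i < X.card
    · have h1 : d i = (((X.equivFin.symm ⟨i, h⟩ : X) : Fin n) : ℕ) := dif_pos h
      rw [h1]
      exact (Fin.is_lt _).trans hn
    · have h1 : d i = n := dif_neg h
      rw [h1]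
      exact hn
  refine ⟨dval B c d, dval_lt hd, ?_⟩
  ext a
  rw [mem_Dg]
  constructor
  · rintro ⟨i, hi, h⟩
    rw [dg_dval hd i hi] at h
    by_cases h2 : i < X.card
    · have h1 : d i = (((X.equivFin.symm ⟨i, h2⟩ : X) : Fin n) : ℕ) := dif_pos h2
      rw [h1] at h
      have h3 : (((X.equivFin.symm ⟨i, h2⟩ : X) : Fin n)) = a := Fin.ext h
      rw [← h3]
      exact (X.equivFin.symm ⟨i, h2⟩).2
    · have h1 : d i = n := dif_neg h2
      rw [h1] at h
      exact absurd a.isLt (by omega)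
  · intro ha
    obtain ⟨j, hj⟩ : ∃ j : Fin X.card, j = X.equivFin ⟨a, ha⟩ := ⟨_, rfl⟩
    have hjc : (j : ℕ) < c := lt_of_lt_of_le j.isLt hX
    refine ⟨j, hjc, ?_⟩
    rw [dg_dval hd _ hjc]
    have h1 : d j = (((X.equivFin.symm ⟨j, j.isLt⟩ : X) : Fin n) : ℕ) := dif_pos j.isLt
    rw [h1]
    have h2 : X.equivFin.symm ⟨j, j.isLt⟩ = ⟨a, ha⟩ := by
      rw [Equiv.symm_apply_eq]
      exact Fin.ext (congrArg Fin.val hj)
    rw [h2]

/-- digits and division with remainder -/
lemma dg_iff {B p x i a : ℕ} (hp : p = B ^ i) (hB : 1 ≤ B) (ha : a < B) :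
    (∃ q, q ≤ x ∧ ∃ r, r ≤ p ∧ (r < p ∧ x = (q * B + a) * p + r)) ↔ dg B x i = a := by
  have hp0 : 0 < p := by rw [hp]; exact Nat.pow_pos hB
  unfold dg
  rw [← hp]
  constructor
  · rintro ⟨q, -, r, -, hr, hx⟩
    have h1 : x / p = q * B + a := by
      rw [hx, mul_comm, Nat.mul_add_div hp0, Nat.div_eq_of_lt hr, add_zero]
    rw [h1, Nat.mul_add_mod_of_lt ha]
  · intro h
    refine ⟨x / p / B, (Nat.div_le_self _ _).trans (Nat.div_le_self _ _), x % p,
      (Nat.mod_lt _ hp0).le, Nat.mod_lt _ hp0, ?_⟩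
    have h1 : x / p / B * B + a = x / p := by
      rw [← h]
      exact Nat.div_add_mod' (x / p) B
    rw [h1]
    exact (Nat.div_add_mod' x p).symm

end Pool.Agent.Helper29.SP4
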