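import Pool.Agent.Helper20.Sparse.GenTo
import Pool.Agent.Helper29.SP4.Code

/-!
# Formulas with small set quantifiers as bounded conditions on codes
-/

set_option autoImplicit false

namespace Pool.Agent.Helper29.SP4

open FirstOrder FirstOrder.Language Pool.Agent.Helper20.Spectra Pool.Agent.Helper14.SS
open Pool.Agent.Helper12.SS (dg)

variable {L : FirstOrder.Language.{0, 0}}

/-- the second-order variables: the symbols of `L` and a binary relation -/
abbrev bL (L : FirstOrder.Language.{0, 0}) : Sym L ⊕ Unit → ℕ := Sum.elim (asym L) (fun _ => 2)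

/-- the part for the symbols of `L` -/
def lp (X : SOA (bL L)) : SOA (asym L) := fun i => X (Sum.inl i)

/-- the binary relation -/
def er (X : SOA (bL L)) (i p : ℕ) : Prop := X (Sum.inr ()) ![i, p]

lemma er_rudX {l : ℕ} {s t : (Fin l → ℕ) → ℕ} (hs : IsPoly l s) (ht : IsPoly l t) :
    RudX (bL L) l (fun X v => er X (s v) (t v)) := by
  refine (RudX.so' (a := bL L) (Sum.inr ()) (t := ![s, t]) ?_).congr ?_
  · intro j
    change Fin 2 at j
    fin_cases j
    · exact hs
    · exact ht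
  · intro X v
    refine Iff.of_eq (congrArg (X (Sum.inr ())) ?_)
    funext j
    change Fin 2 at j
    fin_cases j <;> rfl

lemma lp_rudX {k : ℕ} {P : SOA (asym L) → (Fin k → ℕ) → Prop} (h : RudX (asym L) k P) :
    RudX (bL L) k (fun X v => P (lp X) v) :=
  substSO (b := bL L) (m := 0) (B := fun i X _ w => X (Sum.inl i) w) h
    (fun i => UD.so (b := bL L) (Sum.inl i)) k
    (fun i => i.elim0) (fun i => i.elim0) (fun i v => v i) (fun i => IsPoly.var i)

/-- bounded conditions with three groups of variables -/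
def TrD (L : FirstOrder.Language.{0, 0}) (k m : ℕ)
    (F : SOA (bL L) → (Fin 5 → ℕ) → (Fin k → ℕ) → (Fin m → ℕ) → Prop) : Prop :=
  ∀ (l : ℕ) (u : Fin 5 → (Fin l → ℕ) → ℕ) (w : Fin k → (Fin l → ℕ) → ℕ)
    (x : Fin m → (Fin l → ℕ) → ℕ), (∀ i, IsPoly l (u i)) → (∀ i, IsPoly l (w i)) →
    (∀ i, IsPoly l (x i)) →
    RudX (bL L) l (fun X v => F X (fun i => u i v) (fun i => w i v) (fun i => x i v))

/-- the parameters: number of points, length, number of digits, base, bound -/
def par (n g c : ℕ) : Fin 5 → ℕ := ![n, g, c, 2 ^ g, 2 ^ (g * c)]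

theorem exists_tr {k m : ℕ} (φ : SFm L k m) :
    ∃ F : SOA (bL L) → (Fin 5 → ℕ) → (Fin k → ℕ) → (Fin m → ℕ) → Prop, TrD L k m F ∧
      ∀ (n g c : ℕ) (X : SOA (bL L)) (S : L.Structure (Fin n)), n < 2 ^ g →
        CodesX n (lp X) S →
        (∀ i p, i ≤ 2 ^ (g * c) → p ≤ 2 ^ (g * c) → (er X i p ↔ p = 2 ^ i)) →
        ∀ (v : Fin k → Fin n) (x : Fin m → ℕ),
          (F X (par n g c) (fun i => (v i : ℕ)) x ↔
            @SFm.Holds L (Fin n) S c k m φ v (fun j => Dg n (2 ^ g) c (x j))) := by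
  induction φ with
  | fo φ =>
    rename_i k m
    obtain ⟨F₀, h₀, h₁⟩ := form_X (L := L) (m := k)
      (BoundedFormula.relabel (k := 0) (Sum.inr : Fin k → Empty ⊕ Fin k) φ)
    refine ⟨fun X u w _ => F₀ (lp X) (fun _ => u 0) w, ?_, ?_⟩
    · intro l u w x hu hw _
      exact lp_rudX (h₀ l (fun _ => u 0) w (fun _ => hu 0) hw)
    · intro n g c X S _ hc _ v x
      refine (h₁ n (lp X) S hc v).trans ?_
      let _ := S
      show _ ↔ φ.Realize v
      rw [BoundedFormula.realize_relabel]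
      refine Iff.of_eq ?_
      unfold Formula.Realize
      congr 1
      funext i
      exact i.elim0
  | mem i j =>
    rename_i k m
    refine ⟨fun X u w x => ∃ i', i' ≤ u 2 ∧ (i' < u 2 ∧ ∃ p, p ≤ u 4 ∧ (er X (u 1 * i') p ∧
      ∃ q, q ≤ x j ∧ ∃ r, r ≤ p ∧ (r < p ∧ x j = (q * u 3 + w i) * p + r))), ?_, ?_⟩
    · intro l u w x hu hw hx
      refine RudX.ex (hu 2) (RudX.and' (RudX.lt (IsPoly.var 0) (hu 2).tail) (RudX.ex (hu 4).tail
        (RudX.and' (er_rudX ((hu 1).tail.tail.mul (IsPoly.var 1)) (IsPoly.var 0))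
          (RudX.ex (hx j).tail.tail (RudX.ex (IsPoly.var 1) (RudX.and'
            (RudX.lt (IsPoly.var 0) (IsPoly.var 2)) (RudX.eq (hx j).tail.tail.tail.tail
              (((((IsPoly.var 1).mul (hu 3).tail.tail.tail.tail).add
                (hw i).tail.tail.tail.tail).mul (IsPoly.var 2)).add (IsPoly.var 0)))))))))
    · intro n g c X S hn _ hE v x
      show _ ↔ v i ∈ Dg n (2 ^ g) c (x j)
      rw [mem_Dg]
      have hB : 1 ≤ 2 ^ g := Nat.one_le_two_pow
      have ha : (v i : ℕ) < 2 ^ g := (v i).isLt.trans hn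
      constructor
      · rintro ⟨i', -, hi', p, hp, he, h⟩
        have hi'' : i' < c := hi'
        have h1 : g * i' ≤ g * c := Nat.mul_le_mul_left g hi''.le
        have hp' : p = 2 ^ (g * i') :=
          (hE (g * i') p (h1.trans Nat.lt_two_pow_self.le) hp).1 he
        exact ⟨i', hi'', (dg_iff (by rw [hp', pow_mul]) hB ha).1 h⟩
      · rintro ⟨i', hi', h⟩
        have h1 : g * i' ≤ g * c := Nat.mul_le_mul_left g hi'.le
        have h2 : 2 ^ (g * i') ≤ 2 ^ (g * c) := Nat.pow_le_pow_right (by norm_num) h1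
        exact ⟨i', hi'.le, hi', 2 ^ (g * i'), h2,
          (hE (g * i') _ (h1.trans Nat.lt_two_pow_self.le) h2).2 rfl,
          (dg_iff (pow_mul 2 g i') hB ha).2 h⟩
  | not φ ih =>
    obtain ⟨F, h1, h2⟩ := ih
    refine ⟨fun X u w x => ¬ F X u w x, fun l u w x hu hw hx => (h1 l u w x hu hw hx).not', ?_⟩
    intro n g c X S hn hc hE v x
    exact not_congr (h2 n g c X S hn hc hE v x)
  | and φ ψ ih ih' =>
    obtain ⟨F, h1, h2⟩ := ih
    obtain ⟨G, h1', h2'⟩ := ih'
    refine ⟨fun X u w x => F X u w x ∧ G X u w x, fun l u w x hu hw hx =>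
      (h1 l u w x hu hw hx).and' (h1' l u w x hu hw hx), ?_⟩
    intro n g c X S hn hc hE v x
    exact and_congr (h2 n g c X S hn hc hE v x) (h2' n g c X S hn hc hE v x)
  | ex φ ih =>
    rename_i k m
    obtain ⟨F, h1, h2⟩ := ih
    refine ⟨fun X u w x => ∃ a, a ≤ u 0 ∧ (a < u 0 ∧ F X u (Fin.cons a w) x), ?_, ?_⟩
    · intro l u w x hu hw hx
      refine RudX.ex (hu 0) (RudX.and' (RudX.lt (IsPoly.var 0) (hu 0).tail) ?_)
      refine (h1 (l + 1) (fun i v => u i (Fin.tail v))
        (Fin.cons (fun v => v 0) (fun i v => w i (Fin.tail v)))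
        (fun i v => x i (Fin.tail v)) (fun i => (hu i).tail) (fun i => ?_)
        (fun i => (hx i).tail)).congr (fun X v => ?_)
      · refine Fin.cases ?_ (fun i => ?_) i
        · exact IsPoly.var 0
        · exact (hw i).tail
      · refine Iff.of_eq (congrArg (fun y => F X _ y _) ?_)
        funext i
        refine Fin.cases ?_ (fun i => ?_) i <;> rfl
    · intro n g c X S hn hc hE v x
      have e : ∀ a : Fin n, (Fin.cons (a : ℕ) (fun i => (v i : ℕ)) : Fin (k + 1) → ℕ) =
          fun i => ((Fin.cons a v : Fin (k + 1) → Fin n) i : ℕ) := by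
        intro a
        funext i
        refine Fin.cases ?_ (fun i => ?_) i <;> rfl
      constructor
      · rintro ⟨a, -, ha, h⟩
        have ha' : a < n := ha
        refine ⟨⟨a, ha'⟩, (h2 n g c X S hn hc hE _ x).1 ?_⟩
        rw [← e ⟨a, ha'⟩]
        exact h
      · rintro ⟨a, h⟩
        refine ⟨a, a.isLt.le, a.isLt, ?_⟩
        rw [e a]
        exact (h2 n g c X S hn hc hE _ x).2 h
  | exSet φ ih =>
    rename_i k m
    obtain ⟨F, h1, h2⟩ := ih
    refine ⟨fun X u w x => ∃ y, y ≤ u 4 ∧ F X u w (Fin.cons y x), ?_, ?_⟩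
    · intro l u w x hu hw hx
      refine RudX.ex (hu 4) ?_
      refine (h1 (l + 1) (fun i v => u i (Fin.tail v)) (fun i v => w i (Fin.tail v))
        (Fin.cons (fun v => v 0) (fun i v => x i (Fin.tail v)))
        (fun i => (hu i).tail) (fun i => (hw i).tail) (fun i => ?_)).congr (fun X v => ?_)
      · refine Fin.cases ?_ (fun i => ?_) i
        · exact IsPoly.var 0
        · exact (hx i).tail
      · refine Iff.of_eq (congrArg (fun y => F X _ _ y) ?_)
        funext i
        refine Fin.cases ?_ (fun i => ?_) i <;> rfl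
    · intro n g c X S hn hc hE v x
      have e : ∀ y : ℕ, (fun j => Dg n (2 ^ g) c ((Fin.cons y x : Fin (m + 1) → ℕ) j)) =
          (Fin.cons (Dg n (2 ^ g) c y) (fun j => Dg n (2 ^ g) c (x j)) :
            Fin (m + 1) → Finset (Fin n)) := by
        intro y
        funext i
        refine Fin.cases ?_ (fun i => ?_) i <;> rfl
      constructor
      · rintro ⟨y, -, h⟩
        refine ⟨Dg n (2 ^ g) c y, card_Dg _ _ _ _, ?_⟩
        rw [← e y]
        exact (h2 n g c X S hn hc hE v _).1 h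
      · rintro ⟨Y, hY, h⟩
        obtain ⟨y, hy, rfl⟩ := cover_Dg hn Y hY
        rw [← pow_mul] at hy
        refine ⟨y, hy.le, (h2 n g c X S hn hc hE v _).2 ?_⟩
        rw [e y]
        exact h

end Pool.Agent.Helper29.SP4
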